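import Pool.Agent.Lib_MP_a71bf8_co.Pot

/-!
# MP_a71bf8_co: from the threshold to explicit bounds; upper bound; the case `n < 2 k`
-/

namespace Pool.Agent.MP_a71bf8_co

open Finset

/-- `(n - k).choose k * (n - k + J) ^ i ≤ (n - k + i).choose k * (n - 2 k + J) ^ i` for `i ≤ J`. -/
theorem choose_ratio {k r J : ℕ} (i : ℕ) (hi : i ≤ J) :
    (k + r).choose k * (k + r + J) ^ i ≤ (k + r + i).choose k * (r + J) ^ i := by
  induction i with
  | zero => simp
  | succ i ih =>
    have ih := ih (by omega)
    have h1 : (k + r + i).choose k * (k + r + i + 1) = (k + r + i + 1).choose k * (r + i + 1) := by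
      have := Nat.choose_mul_succ_eq (k + r + i) k
      rw [this]
      congr 1
      omega
    have h2 : (k + r + J) * (r + i + 1) ≤ (k + r + i + 1) * (r + J) := by
      obtain ⟨j, rfl⟩ := Nat.exists_eq_add_of_le hi
      nlinarith [Nat.zero_le (k * j)]
    refine Nat.le_of_mul_le_mul_right (c := r + i + 1) ?_ (by omega)
    calc (k + r).choose k * (k + r + J) ^ (i + 1) * (r + i + 1)
        = ((k + r).choose k * (k + r + J) ^ i) * ((k + r + J) * (r + i + 1)) := by ring
      _ ≤ ((k + r + i).choose k * (r + J) ^ i) * ((k + r + i + 1) * (r + J)) :=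
          Nat.mul_le_mul ih h2
      _ = ((k + r + i).choose k * (k + r + i + 1)) * (r + J) ^ (i + 1) := by ring
      _ = ((k + r + i + 1).choose k * (r + i + 1)) * (r + J) ^ (i + 1) := by rw [h1]
      _ = (k + r + (i + 1)).choose k * (r + J) ^ (i + 1) * (r + i + 1) := by
          rw [show k + r + (i + 1) = k + r + i + 1 by ring]; ring

/-- The threshold in explicit form. -/
theorem lower {n k J : ℕ} (hJ : 1 ≤ J) (hJk : J ≤ k) (hn : 2 * k ≤ n)
    (h : (2 * n + 1) * (n - 2 * k + J) ^ J < (n - k + J) ^ J) :
    k + 1 ≤ tauMax n k + J ∧ k + 1 ≤ tauMin n k + J := by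
  obtain ⟨r, rfl⟩ := Nat.exists_eq_add_of_le hn
  have e1 : 2 * k + r - 2 * k = r := by omega
  have e2 : 2 * k + r - k = k + r := by omega
  have e3 : 2 * k + r - (k - J) = k + r + J := by omega
  rw [e1, e2] at h
  have hch := choose_ratio (k := k) (r := r) (J := J) J le_rfl
  have hD0 : 0 < (k + r).choose k := Nat.choose_pos (by omega)
  have ht := threshold (n := 2 * k + r) (k := k) (s := k - J) (by omega) hn (by omega) (by
    rw [e2, e3]
    refine lt_of_mul_lt_mul_right (a := (r + J) ^ J) ?_ (Nat.zero_le _)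
    calc (2 * (2 * k + r) + 1) * (k + r).choose k * (r + J) ^ J
        = (k + r).choose k * ((2 * (2 * k + r) + 1) * (r + J) ^ J) := by ring
      _ < (k + r).choose k * (k + r + J) ^ J := Nat.mul_lt_mul_of_pos_left h hD0
      _ ≤ _ := hch)
  omega

theorem cov_le {n k : ℕ} {F : Finset (Finset (Fin n))} {B : Finset (Fin n)}
    (hBk : B.card = k) (hint : ∀ A ∈ F, (B ∩ A).Nonempty) : cov F ≤ k :=
  Nat.sInf_le ⟨B, hBk, hint⟩

/-- a claimed family is intersecting and consists of `k`-sets -/
def Good {n : ℕ} (k : ℕ) (F : Finset (Finset (Fin n))) : Prop :=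
  ∀ A ∈ F, A.card = k ∧ ∀ B ∈ F, (A ∩ B).Nonempty

theorem good_insert {n k : ℕ} (hk : 1 ≤ k) {F : Finset (Finset (Fin n))} (hF : Good k F)
    {A : Finset (Fin n)} (hA : A ∈ legal k F) : Good k (insert A F) := by
  have hA' := mem_legal.1 hA
  intro B hB
  rcases mem_insert.1 hB with rfl | hB1
  · refine ⟨hA'.1, fun C hC => ?_⟩
    rcases mem_insert.1 hC with rfl | hC
    · rw [inter_self, ← Finset.card_pos, hA'.1]
      exact hk
    · exact hA'.2.2 C hC
  · refine ⟨(hF B hB1).1, fun C hC => ?_⟩
    rcases mem_insert.1 hC with rfl | hC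
    · rw [inter_comm]
      exact hA'.2.2 B hB1
    · exact (hF B hB1).2 C hC

theorem value_le {n k : ℕ} (hk : 1 ≤ k) (m : ℕ) : ∀ (b : Bool) (F : Finset (Finset (Fin n))),
    Good k F → F.Nonempty → value k m b F ≤ k := by
  induction m with
  | zero =>
    intro b F hF hne
    obtain ⟨B, hB⟩ := hne
    exact cov_le (hF B hB).1 (hF B hB).2
  | succ m ih =>
    intro b F hF hne
    unfold value
    by_cases h : (legal k F).Nonempty
    · rw [dif_pos h]
      split_ifs
      · exact Finset.sup'_le _ _ fun A hA => ih false _ (good_insert hk hF hA) ⟨A, mem_insert_self _ _⟩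
      · obtain ⟨A, hA⟩ := h
        exact (Finset.inf'_le _ hA).trans (ih true _ (good_insert hk hF hA) ⟨A, mem_insert_self _ _⟩)
    · rw [dif_neg h]
      obtain ⟨B, hB⟩ := hne
      exact cov_le (hF B hB).1 (hF B hB).2

theorem tau_le {n k : ℕ} (hk : 1 ≤ k) (hkn : k ≤ n) : tauMax n k ≤ k ∧ tauMin n k ≤ k := by
  have hpos : 0 < n.choose k := Nat.choose_pos hkn
  obtain ⟨m, hm⟩ : ∃ m, n.choose k = m + 1 := ⟨n.choose k - 1, by omega⟩
  have hne : (legal (n := n) k ∅).Nonempty := by
    rw [legal_empty, powersetCard_nonempty, card_univ, Fintype.card_fin]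
    exact hkn
  have hg : Good (n := n) k ∅ := fun A hA => by simp at hA
  unfold tauMax tauMin
  rw [hm]
  unfold value
  rw [dif_pos hne, dif_pos hne, if_pos rfl, if_neg (by simp)]
  constructor
  · exact Finset.sup'_le _ _ fun A hA =>
      value_le hk m false _ (good_insert hk hg hA) ⟨A, mem_insert_self _ _⟩
  · obtain ⟨A, hA⟩ := hne
    exact (Finset.inf'_le _ hA).trans
      (value_le hk m true _ (good_insert hk hg hA) ⟨A, mem_insert_self _ _⟩)

/-- If `n < 2 k`, then any two `k`-sets intersect, and all of them are claimed. -/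
theorem value_small {n k : ℕ} (hn : n < 2 * k) (m : ℕ) : ∀ (b : Bool) (F : Finset (Finset (Fin n))),
    F ⊆ powersetCard k univ → (legal k F).card ≤ m →
      value k m b F = cov (powersetCard k (univ : Finset (Fin n))) := by
  have hinter : ∀ A B : Finset (Fin n), A.card = k → B.card = k → (A ∩ B).Nonempty := by
    intro A B hA hB
    rw [← Finset.not_disjoint_iff_nonempty_inter]
    intro hd
    have := Finset.card_union_of_disjoint hd
    have h2 : (A ∪ B).card ≤ n := by
      have := Finset.card_le_univ (A ∪ B)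
      rwa [Fintype.card_fin] at this
    omega
  have hempty : ∀ F : Finset (Finset (Fin n)), F ⊆ powersetCard k univ → legal k F = ∅ →
      F = powersetCard k univ := by
    intro F hF hl
    refine Finset.Subset.antisymm hF fun A hA => ?_
    by_contra hAF
    have hAk := (mem_powersetCard.1 hA).2
    have : A ∈ legal k F := mem_legal.2 ⟨hAk, hAF, fun B hB =>
      hinter A B hAk (mem_powersetCard.1 (hF hB)).2⟩
    rw [hl] at this
    simp at this
  have hins : ∀ F : Finset (Finset (Fin n)), F ⊆ powersetCard k univ → ∀ A ∈ legal k F,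
      insert A F ⊆ powersetCard k univ := by
    intro F hF A hA
    refine Finset.insert_subset ?_ hF
    exact mem_powersetCard.2 ⟨subset_univ _, (mem_legal.1 hA).1⟩
  induction m with
  | zero =>
    intro b F hF hl
    have hl' : legal k F = ∅ := by
      rw [← Finset.card_eq_zero]
      omega
    rw [← hempty F hF hl']
    rfl
  | succ m ih =>
    intro b F hF hl
    unfold value
    by_cases h : (legal k F).Nonempty
    · rw [dif_pos h]
      split_ifs
      · apply le_antisymm
        · refine Finset.sup'_le _ _ fun A hA => ?_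
          rw [ih false _ (hins F hF A hA)]
          have := legal_insert_card hA
          omega
        · obtain ⟨A, hA⟩ := h
          refine le_trans ?_ (Finset.le_sup' _ hA)
          rw [ih false _ (hins F hF A hA)]
          have := legal_insert_card hA
          omega
      · apply le_antisymm
        · obtain ⟨A, hA⟩ := h
          refine le_trans (Finset.inf'_le _ hA) ?_
          rw [ih true _ (hins F hF A hA)]
          have := legal_insert_card hA
          omega
        · refine Finset.le_inf' _ _ fun A hA => ?_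
          rw [ih true _ (hins F hF A hA)]
          have := legal_insert_card hA
          omega
    · rw [dif_neg h, ← hempty F hF (Finset.not_nonempty_iff_eq_empty.1 h)]

theorem tau_small {n k : ℕ} (hn : n < 2 * k) : tauMax n k = tauMin n k := by
  have hcard : (legal (n := n) k ∅).card ≤ n.choose k := by
    rw [legal_empty, card_powersetCard, card_univ, Fintype.card_fin]
  unfold tauMax tauMin
  rw [value_small hn _ _ _ (empty_subset _) hcard, value_small hn _ _ _ (empty_subset _) hcard]

/-- `τ ≥ k - (n / k) log (2 n + 2)` -/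
theorem lower_log {n k : ℕ} (hk : 1 ≤ k) (hn : 2 * k ≤ n) :
    (k : ℝ) - n / k * Real.log (2 * n + 2) ≤ tauMax n k ∧
      (k : ℝ) - n / k * Real.log (2 * n + 2) ≤ tauMin n k := by
  set z : ℝ := (n : ℝ) / k * Real.log (2 * n + 2) with hz
  have hk0 : (0 : ℝ) < k := by exact_mod_cast hk
  have hn0 : (0 : ℝ) < n := by exact_mod_cast (by omega : 0 < n)
  have hlog : 0 < Real.log (2 * n + 2) := Real.log_pos (by linarith)
  have hz0 : 0 < z := by positivity
  set J := ⌈z⌉₊ with hJ
  have hJ1 : 1 ≤ J := Nat.ceil_pos.2 hz0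
  have hJz : z ≤ J := Nat.le_ceil z
  have hJz' : (J : ℝ) < z + 1 := Nat.ceil_lt_add_one hz0.le
  by_cases hJk : J ≤ k
  · have hJk' : (J : ℝ) ≤ k := by exact_mod_cast hJk
    have hl := lower (n := n) (k := k) hJ1 hJk hn (by
      obtain ⟨r, rfl⟩ := Nat.exists_eq_add_of_le hn
      have e1 : 2 * k + r - 2 * k = r := by omega
      have e2 : 2 * k + r - k = k + r := by omega
      rw [e1, e2]
      have hr0 : (0 : ℝ) ≤ r := Nat.cast_nonneg r
      have hrJ : (0 : ℝ) < (r : ℝ) + J := by
        have : (1 : ℝ) ≤ J := by exact_mod_cast hJ1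
        linarith
      have key : (2 * ((2 * k + r : ℕ) : ℝ) + 2) * ((r : ℝ) + J) ^ J ≤ ((k : ℝ) + r + J) ^ J := by
        have h1 : (k : ℝ) / ((2 * k + r : ℕ) : ℝ) ≤ Real.log (((k : ℝ) + r + J) / (r + J)) := by
          have h2 := Real.one_sub_inv_le_log_of_pos (x := ((k : ℝ) + r + J) / (r + J))
            (by positivity)
          refine le_trans ?_ h2
          rw [inv_div, show (1 : ℝ) - (r + J) / (k + r + J) = k / (k + r + J) by
            field_simp; ring]
          apply div_le_div_of_nonneg_left hk0.le (by positivity)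
          push_cast
          linarith
        have h3 : Real.log (2 * ((2 * k + r : ℕ) : ℝ) + 2) ≤
            J * Real.log (((k : ℝ) + r + J) / (r + J)) := by
          calc Real.log (2 * ((2 * k + r : ℕ) : ℝ) + 2) = z * (k / ((2 * k + r : ℕ) : ℝ)) := by
                rw [hz]
                field_simp
            _ ≤ J * (k / ((2 * k + r : ℕ) : ℝ)) := mul_le_mul_of_nonneg_right hJz (by positivity)
            _ ≤ _ := mul_le_mul_of_nonneg_left h1 (Nat.cast_nonneg J)
        rw [← Real.log_pow] at h3
        have h4 := (Real.log_le_log_iff (by positivity) (by positivity)).1 h3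
        rw [div_pow, le_div_iff₀ (by positivity)] at h4
        exact h4
      have key2 : (2 * (2 * k + r) + 1) * (r + J) ^ J < (k + r + J) ^ J := by
        have h5 : ((2 * (2 * k + r) + 1 : ℕ) : ℝ) * ((r + J : ℕ) : ℝ) ^ J < ((k + r + J : ℕ) : ℝ) ^ J := by
          push_cast at key ⊢
          have h6 : (0 : ℝ) < ((r : ℝ) + J) ^ J := by positivity
          nlinarith
        exact_mod_cast h5
      exact key2)
    constructor
    · have : ((k + 1 : ℕ) : ℝ) ≤ ((tauMax n k + J : ℕ) : ℝ) := by exact_mod_cast hl.1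
      push_cast at this
      linarith
    · have : ((k + 1 : ℕ) : ℝ) ≤ ((tauMin n k + J : ℕ) : ℝ) := by exact_mod_cast hl.2
      push_cast at this
      linarith
  · have hJk' : (k : ℝ) + 1 ≤ J := by exact_mod_cast (by omega : k + 1 ≤ J)
    have h1 : (0 : ℝ) ≤ tauMax n k := Nat.cast_nonneg _
    have h2 : (0 : ℝ) ≤ tauMin n k := Nat.cast_nonneg _
    constructor <;> linarith

end Pool.Agent.MP_a71bf8_co
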