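import Mathlib

/-!
# MP_a71bf8_co: the game

Two players alternately claim one `k`-subset of `Fin n`, such that the claimed family stays
intersecting. The score is the covering number of the family at the end.
-/

namespace Pool.Agent.MP_a71bf8_co

/-- The legal moves: the `k`-sets which are not claimed and intersect all claimed sets. -/
def legal {n : ℕ} (k : ℕ) (F : Finset (Finset (Fin n))) : Finset (Finset (Fin n)) :=
  (Finset.powersetCard k Finset.univ).filter fun A => A ∉ F ∧ ∀ B ∈ F, (A ∩ B).Nonempty

/-- The covering number: the least size of a set which meets all members of `F`. -/
noncomputable def cov {n : ℕ} (F : Finset (Finset (Fin n))) : ℕ :=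
  sInf {t | ∃ S : Finset (Fin n), S.card = t ∧ ∀ B ∈ F, (S ∩ B).Nonempty}

/-- The value of the position `F`; Maximizer moves next if `b = true`, minimizer if `b = false`. The
play stops when no legal move remains or after `m` further moves (see `tauMax`). -/
noncomputable def value {n : ℕ} (k : ℕ) : ℕ → Bool → Finset (Finset (Fin n)) → ℕ
  | 0, _, F => cov F
  | m + 1, b, F =>
    if h : (legal k F).Nonempty then
      if b then (legal k F).sup' h fun A => value k m false (insert A F)
      else (legal k F).inf' h fun A => value k m true (insert A F)
    else cov F

/-- The value of the game on `[n]` if Maximizer makes the first move. There are `n.choose k` sets,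
thus after `n.choose k` moves no legal move remains. -/
noncomputable def tauMax (n k : ℕ) : ℕ := value (n := n) k (n.choose k) true ∅

/-- The value of the game on `[n]` if minimizer makes the first move. -/
noncomputable def tauMin (n k : ℕ) : ℕ := value (n := n) k (n.choose k) false ∅

end Pool.Agent.MP_a71bf8_co
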