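import Pool.Agent.Lib_MP_a71bf8_co.Defs

/-!
# MP_a71bf8_co: the potential function

Maximizer always claims the legal set `A` for which the weight of the alive sets `S` disjoint from `A`
is the largest. Here a set `S` of size `s` is alive if it covers the claimed family, and its weight is
`y ^ (-a)` where `a` is the number of legal sets disjoint from `S`, and `y ^ D = √2`, where
`D = (n - k).choose k` is the number of `k`-sets disjoint from a given `k`-set.
-/

namespace Pool.Agent.MP_a71bf8_co

open Finset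

variable {n : ℕ}

theorem mem_legal {k : ℕ} {F : Finset (Finset (Fin n))} {A : Finset (Fin n)} :
    A ∈ legal k F ↔ A.card = k ∧ A ∉ F ∧ ∀ B ∈ F, (A ∩ B).Nonempty := by
  simp [legal, Finset.mem_powersetCard]

theorem mem_legal_insert {k : ℕ} {F : Finset (Finset (Fin n))} {A A' : Finset (Fin n)} :
    A' ∈ legal k (insert A F) ↔ A' ∈ legal k F ∧ A' ≠ A ∧ (A' ∩ A).Nonempty := by
  simp only [mem_legal, mem_insert, not_or, forall_eq_or_imp]
  tauto

theorem legal_insert_sub {k : ℕ} {F : Finset (Finset (Fin n))} {A : Finset (Fin n)} :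
    legal k (insert A F) ⊆ legal k F := fun _ h => (mem_legal_insert.1 h).1

theorem legal_insert_card {k : ℕ} {F : Finset (Finset (Fin n))} {A : Finset (Fin n)}
    (hA : A ∈ legal k F) : (legal k (insert A F)).card < (legal k F).card := by
  apply Finset.card_lt_card
  refine (Finset.ssubset_iff_of_subset legal_insert_sub).2 ⟨A, hA, ?_⟩
  intro h
  exact (mem_legal_insert.1 h).2.1 rfl

/-- `S` covers `F` -/
def Cov (F : Finset (Finset (Fin n))) (S : Finset (Fin n)) : Prop := ∀ B ∈ F, (S ∩ B).Nonempty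

/-- the number of legal sets disjoint from `S` -/
def av (k : ℕ) (F : Finset (Finset (Fin n))) (S : Finset (Fin n)) : ℕ :=
  ((legal k F).filter fun A => Disjoint A S).card

/-- the number of legal sets disjoint from `S` and `A` -/
def dv (k : ℕ) (F : Finset (Finset (Fin n))) (A S : Finset (Fin n)) : ℕ :=
  ((legal k F).filter fun A' => Disjoint A' S ∧ Disjoint A' A).card

open Classical in
noncomputable def wt (k : ℕ) (y : ℝ) (F : Finset (Finset (Fin n))) (S : Finset (Fin n)) : ℝ :=
  if Cov F S then (y ^ av k F S)⁻¹ else 0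

noncomputable def Phi (k s : ℕ) (y : ℝ) (F : Finset (Finset (Fin n))) : ℝ :=
  ∑ S ∈ powersetCard s univ, wt k y F S

noncomputable def RR (k s : ℕ) (y : ℝ) (F : Finset (Finset (Fin n))) (A : Finset (Fin n)) : ℝ :=
  ∑ S ∈ powersetCard s univ, if Disjoint A S then wt k y F S else 0

theorem wt_nonneg {k : ℕ} {y : ℝ} (hy : 1 ≤ y) (F : Finset (Finset (Fin n))) (S : Finset (Fin n)) :
    0 ≤ wt k y F S := by
  unfold wt
  split_ifs
  · positivity
  · exact le_rfl

theorem av_insert {k : ℕ} {F : Finset (Finset (Fin n))} {A S : Finset (Fin n)}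
    (hS : ¬ Disjoint A S) : av k (insert A F) S + dv k F A S = av k F S := by
  unfold av dv
  rw [← Finset.card_union_of_disjoint]
  · congr 1
    ext A'
    simp only [mem_union, mem_filter, mem_legal_insert]
    constructor
    · rintro (⟨⟨h1, -, -⟩, h2⟩ | ⟨h1, h2, -⟩)
      · exact ⟨h1, h2⟩
      · exact ⟨h1, h2⟩
    · rintro ⟨h1, h2⟩
      by_cases h3 : Disjoint A' A
      · exact Or.inr ⟨h1, h2, h3⟩
      · refine Or.inl ⟨⟨h1, ?_, ?_⟩, h2⟩
        · rintro rfl
          exact hS h2
        · rwa [Finset.not_disjoint_iff_nonempty_inter] at h3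
  · rw [Finset.disjoint_left]
    intro A' h1 h2
    simp only [mem_filter, mem_legal_insert] at h1 h2
    exact Finset.not_disjoint_iff_nonempty_inter.2 h1.1.2.2 h2.2.2

theorem wt_insert {k : ℕ} {y : ℝ} (hy : 1 ≤ y) {F : Finset (Finset (Fin n))} {A : Finset (Fin n)}
    (S : Finset (Fin n)) :
    wt k y (insert A F) S = if Disjoint A S then 0 else wt k y F S * y ^ dv k F A S := by
  unfold wt
  by_cases h : Disjoint A S
  · rw [if_pos h, if_neg]
    intro hc
    have := hc A (mem_insert_self _ _)
    rw [inter_comm] at this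
    exact Finset.not_disjoint_iff_nonempty_inter.2 this h
  · rw [if_neg h]
    by_cases hc : Cov F S
    · have hc' : Cov (insert A F) S := by
        intro B hB
        rcases mem_insert.1 hB with rfl | hB
        · rw [inter_comm]
          exact Finset.not_disjoint_iff_nonempty_inter.1 h
        · exact hc B hB
      have e := av_insert (k := k) (F := F) h
      have hy0 : y ^ dv k F A S ≠ 0 := by positivity
      rw [if_pos hc, if_pos hc', ← e, pow_add, mul_inv, mul_assoc, inv_mul_cancel₀ hy0, mul_one]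
    · have hc' : ¬ Cov (insert A F) S := fun hc' => hc fun B hB => hc' B (mem_insert_of_mem hB)
      rw [if_neg hc, if_neg hc', zero_mul]

theorem card_dis {k : ℕ} {F : Finset (Finset (Fin n))} {A : Finset (Fin n)} (hA : A.card = k) :
    ((legal k F).filter fun A' => Disjoint A' A).card ≤ (n - k).choose k := by
  have h1 : ((legal k F).filter fun A' => Disjoint A' A) ⊆ powersetCard k Aᶜ := by
    intro A' h
    simp only [mem_filter, mem_legal] at h
    rw [mem_powersetCard]
    refine ⟨?_, h.1.1⟩
    intro x hx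
    rw [mem_compl]
    exact fun hx' => Finset.disjoint_left.1 h.2 hx hx'
  refine (Finset.card_le_card h1).trans ?_
  rw [card_powersetCard, card_compl, hA, Fintype.card_fin]

theorem dv_le {k : ℕ} {F : Finset (Finset (Fin n))} {A S : Finset (Fin n)} (hA : A.card = k) :
    dv k F A S ≤ (n - k).choose k := by
  refine le_trans (Finset.card_le_card ?_) (card_dis (F := F) hA)
  intro A' h
  simp only [mem_filter] at h ⊢
  exact ⟨h.1, h.2.2⟩

theorem pow_le_lin {y : ℝ} {D d : ℕ} (hy : 1 ≤ y) (hD : y ^ D = √2) (hd : d ≤ D) (hD0 : 0 < D) :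
    y ^ d ≤ 1 + (√2 - 1) / D * d := by
  have h1 : (1 : ℝ) ≤ √2 := by
    rw [← hD]
    exact one_le_pow₀ hy
  have hp : (1 + (√2 - 1)) ^ ((d : ℝ) / D) ≤ 1 + (d : ℝ) / D * (√2 - 1) := by
    apply rpow_one_add_le_one_add_mul_self
    · linarith
    · positivity
    · rw [div_le_one (by positivity)]
      exact_mod_cast hd
  have h2 : (1 + (√2 - 1)) ^ ((d : ℝ) / D) = y ^ d := by
    rw [add_sub_cancel, ← hD, ← Real.rpow_natCast y D, ← Real.rpow_mul (by linarith),
      mul_div_cancel₀ _ (by positivity), Real.rpow_natCast]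
  rw [h2] at hp
  calc y ^ d ≤ _ := hp
    _ = _ := by ring

/-- the sum of the losses -/
theorem sum_dv {k s : ℕ} {y : ℝ} {F : Finset (Finset (Fin n))} {A : Finset (Fin n)} :
    ∑ S ∈ powersetCard s univ, wt k y F S * dv k F A S =
      ∑ A' ∈ (legal k F).filter (fun A' => Disjoint A' A), RR k s y F A' := by
  unfold RR
  rw [Finset.sum_comm]
  refine Finset.sum_congr rfl fun S _ => ?_
  rw [← Finset.sum_filter, Finset.sum_const, Finset.filter_filter, nsmul_eq_mul, mul_comm]
  congr 2
  unfold dv
  congr 1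
  ext A'
  simp only [mem_filter]
  tauto

theorem Phi_insert {k s : ℕ} {y : ℝ} (hy : 1 ≤ y) (hD : y ^ ((n - k).choose k) = √2)
    (hD0 : 0 < (n - k).choose k) {F : Finset (Finset (Fin n))} {A : Finset (Fin n)}
    (hA : A ∈ legal k F) {ρ : ℝ} (hρ0 : 0 ≤ ρ) (hρ : ∀ A' ∈ legal k F, RR k s y F A' ≤ ρ) :
    Phi k s y (insert A F) ≤ Phi k s y F - RR k s y F A + (√2 - 1) * ρ := by
  have h1 : (1 : ℝ) ≤ √2 := by
    rw [← hD]
    exact one_le_pow₀ hy
  have hAk := (mem_legal.1 hA).1
  have e1 : Phi k s y (insert A F) ≤ Phi k s y F - RR k s y F A +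
      (√2 - 1) / ((n - k).choose k) * ∑ S ∈ powersetCard s univ, wt k y F S * dv k F A S := by
    unfold Phi RR
    rw [← Finset.sum_sub_distrib, Finset.mul_sum, ← Finset.sum_add_distrib]
    refine Finset.sum_le_sum fun S _ => ?_
    rw [wt_insert hy]
    have hw := wt_nonneg (k := k) hy F S
    by_cases h : Disjoint A S
    · rw [if_pos h, if_pos h]
      have : 0 ≤ (√2 - 1) / ((n - k).choose k) * (wt k y F S * (dv k F A S : ℝ)) := by
        have : 0 ≤ √2 - 1 := by linarith
        positivity
      linarith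
    · rw [if_neg h, if_neg h]
      have h2 := pow_le_lin hy hD (dv_le (F := F) (S := S) hAk) hD0
      calc wt k y F S * y ^ dv k F A S
          ≤ wt k y F S * (1 + (√2 - 1) / ((n - k).choose k) * dv k F A S) :=
            mul_le_mul_of_nonneg_left h2 hw
        _ = _ := by ring
  refine e1.trans ?_
  rw [sum_dv]
  have e2 : ∑ A' ∈ (legal k F).filter (fun A' => Disjoint A' A), RR k s y F A' ≤
      ((n - k).choose k : ℝ) * ρ := by
    calc ∑ A' ∈ (legal k F).filter (fun A' => Disjoint A' A), RR k s y F A'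
        ≤ ∑ A' ∈ (legal k F).filter (fun A' => Disjoint A' A), ρ :=
          Finset.sum_le_sum fun A' h => hρ A' (mem_filter.1 h).1
      _ = (((legal k F).filter (fun A' => Disjoint A' A)).card : ℝ) * ρ := by
          rw [Finset.sum_const, nsmul_eq_mul]
      _ ≤ _ := by
          refine mul_le_mul_of_nonneg_right ?_ hρ0
          exact_mod_cast card_dis hAk
  have e3 : (√2 - 1) / ((n - k).choose k) *
      ∑ A' ∈ (legal k F).filter (fun A' => Disjoint A' A), RR k s y F A' ≤ (√2 - 1) * ρ := by
    have h2 : 0 ≤ (√2 - 1) / ((n - k).choose k : ℝ) := by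
      have : 0 ≤ √2 - 1 := by linarith
      positivity
    calc _ ≤ (√2 - 1) / ((n - k).choose k) * (((n - k).choose k : ℝ) * ρ) :=
          mul_le_mul_of_nonneg_left e2 h2
      _ = _ := by
          have : ((n - k).choose k : ℝ) ≠ 0 := by positivity
          field_simp
  linarith

theorem RR_insert {k s : ℕ} {y : ℝ} (hy : 1 ≤ y) (hD : y ^ ((n - k).choose k) = √2)
    {F : Finset (Finset (Fin n))} {A : Finset (Fin n)}
    (hA : A ∈ legal k F) (A' : Finset (Fin n)) :
    RR k s y (insert A F) A' ≤ √2 * RR k s y F A' := by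
  have hAk := (mem_legal.1 hA).1
  unfold RR
  rw [Finset.mul_sum]
  refine Finset.sum_le_sum fun S _ => ?_
  by_cases h : Disjoint A' S
  · rw [if_pos h, if_pos h, wt_insert hy]
    have hw := wt_nonneg (k := k) hy F S
    split_ifs
    · positivity
    · have h2 : y ^ dv k F A S ≤ √2 := by
        rw [← hD]
        exact pow_le_pow_right₀ hy (dv_le hAk)
      calc wt k y F S * y ^ dv k F A S ≤ wt k y F S * √2 := mul_le_mul_of_nonneg_left h2 hw
        _ = _ := mul_comm _ _
  · rw [if_neg h, if_neg h, mul_zero]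

theorem RR_nonneg {k s : ℕ} {y : ℝ} (hy : 1 ≤ y) (F : Finset (Finset (Fin n)))
    (A : Finset (Fin n)) : 0 ≤ RR k s y F A := by
  unfold RR
  refine Finset.sum_nonneg fun S _ => ?_
  split_ifs
  · exact wt_nonneg hy F S
  · exact le_rfl

theorem RR_le_Phi {k s : ℕ} {y : ℝ} (hy : 1 ≤ y) (F : Finset (Finset (Fin n)))
    (A : Finset (Fin n)) : RR k s y F A ≤ Phi k s y F := by
  unfold RR Phi
  refine Finset.sum_le_sum fun S _ => ?_
  split_ifs
  · exact le_rfl
  · exact wt_nonneg hy F S

/-- the end of the play -/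
theorem cov_ge {k s : ℕ} {y : ℝ} (hs : s ≤ n) (hy : 1 ≤ y) {F : Finset (Finset (Fin n))}
    (hF : ∀ B ∈ F, B.Nonempty) (hl : legal k F = ∅) (hP : Phi k s y F < 1) : s + 1 ≤ cov F := by
  have hne : {t | ∃ S : Finset (Fin n), S.card = t ∧ ∀ B ∈ F, (S ∩ B).Nonempty}.Nonempty :=
    ⟨_, univ, rfl, fun B hB => by rw [univ_inter]; exact hF B hB⟩
  obtain ⟨S, hS, hc⟩ := Nat.sInf_mem hne
  by_contra hcon
  have hSs : S.card ≤ s := by
    have : S.card = cov F := hS
    omega
  obtain ⟨S', hSS', -, hS'⟩ := Finset.exists_subsuperset_card_eq (Finset.subset_univ S) hSs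
    (by rw [card_univ, Fintype.card_fin]; exact hs)
  have hw : wt k y F S' = 1 := by
    have h0 : av k F S' = 0 := by
      unfold av
      rw [hl, filter_empty, card_empty]
    unfold wt
    rw [if_pos, h0, pow_zero, inv_one]
    intro B hB
    exact (hc B hB).mono (inter_subset_inter_right hSS')
  have : (1 : ℝ) ≤ Phi k s y F := by
    rw [← hw]
    unfold Phi
    exact Finset.single_le_sum (f := fun S => wt k y F S) (fun S _ => wt_nonneg hy F S)
      (mem_powersetCard.2 ⟨subset_univ _, hS'⟩)
  linarith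

theorem strategy {k s : ℕ} {y : ℝ} (hk : 1 ≤ k) (hs : s ≤ n) (hy : 1 ≤ y)
    (hD : y ^ ((n - k).choose k) = √2) (hD0 : 0 < (n - k).choose k) (m : ℕ) :
    ∀ F : Finset (Finset (Fin n)), (∀ B ∈ F, B.Nonempty) → (legal k F).card ≤ m →
      (Phi k s y F < 1 → s + 1 ≤ value k m true F) ∧
      (∀ ρ : ℝ, 0 ≤ ρ → (∀ A ∈ legal k F, RR k s y F A ≤ ρ) → Phi k s y F + (√2 - 1) * ρ < 1 →
        s + 1 ≤ value k m false F) := by
  have h1 : (1 : ℝ) ≤ √2 := by
    rw [← hD]
    exact one_le_pow₀ hy
  have h2 : √2 * √2 = (2 : ℝ) := Real.mul_self_sqrt (by norm_num)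
  induction m with
  | zero =>
    intro F hF hl
    have hl' : legal k F = ∅ := by
      rw [← Finset.card_eq_zero]
      omega
    refine ⟨fun hP => cov_ge hs hy hF hl' hP, fun ρ hρ0 _ hP => cov_ge hs hy hF hl' ?_⟩
    have : 0 ≤ (√2 - 1) * ρ := mul_nonneg (by linarith) hρ0
    linarith
  | succ m ih =>
    intro F hF hl
    have hF' : ∀ A ∈ legal k F, ∀ B ∈ insert A F, B.Nonempty := by
      intro A hA B hB
      rcases mem_insert.1 hB with rfl | hB
      · rw [← Finset.card_pos, (mem_legal.1 hA).1]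
        exact hk
      · exact hF B hB
    constructor
    · intro hP
      unfold value
      by_cases hne : (legal k F).Nonempty
      · rw [dif_pos hne, if_pos rfl]
        obtain ⟨A, hA, hmax⟩ := Finset.exists_max_image (legal k F) (RR k s y F) hne
        refine le_trans ?_ (Finset.le_sup' _ hA)
        have hρ0 := RR_nonneg (k := k) (s := s) hy F A
        refine (ih (insert A F) (hF' A hA) ?_).2 (√2 * RR k s y F A) (by positivity) ?_ ?_
        · have := legal_insert_card hA
          omega
        · intro A' hA'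
          refine (RR_insert hy hD hA A').trans ?_
          exact mul_le_mul_of_nonneg_left (hmax A' (legal_insert_sub hA')) (by linarith)
        · have := Phi_insert hy hD hD0 hA hρ0 hmax
          nlinarith
      · rw [dif_neg hne]
        exact cov_ge hs hy hF (Finset.not_nonempty_iff_eq_empty.1 hne) hP
    · intro ρ hρ0 hρ hP
      have hcρ : 0 ≤ (√2 - 1) * ρ := mul_nonneg (by linarith) hρ0
      unfold value
      by_cases hne : (legal k F).Nonempty
      · rw [dif_pos hne, if_neg (by simp)]
        refine Finset.le_inf' _ _ fun B hB => ?_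
        refine (ih (insert B F) (hF' B hB) ?_).1 ?_
        · have := legal_insert_card hB
          omega
        · have := Phi_insert hy hD hD0 hB hρ0 hρ
          have := RR_nonneg (k := k) (s := s) hy F B
          linarith
      · rw [dif_neg hne]
        exact cov_ge hs hy hF (Finset.not_nonempty_iff_eq_empty.1 hne) (by linarith)

theorem legal_empty (k : ℕ) : legal (n := n) k ∅ = powersetCard k univ := by
  ext A
  rw [mem_legal, mem_powersetCard]
  simp

theorem av_empty {k : ℕ} (S : Finset (Fin n)) : av k ∅ S = (n - S.card).choose k := by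
  unfold av
  have : ((legal (n := n) k ∅).filter fun A => Disjoint A S) = powersetCard k Sᶜ := by
    ext A
    rw [legal_empty, mem_filter, mem_powersetCard, mem_powersetCard, and_comm (a := _ ⊆ Sᶜ),
      Finset.subset_compl_iff_disjoint_right]
    simp
  rw [this, card_powersetCard, card_compl, Fintype.card_fin]

theorem Phi_empty {k s : ℕ} {y : ℝ} :
    Phi (n := n) k s y ∅ = (n.choose s : ℝ) * (y ^ ((n - s).choose k))⁻¹ := by
  unfold Phi
  rw [Finset.sum_congr rfl (g := fun _ => (y ^ ((n - s).choose k))⁻¹), Finset.sum_const,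
    card_powersetCard, card_univ, Fintype.card_fin, nsmul_eq_mul]
  intro S hS
  unfold wt
  rw [if_pos, av_empty, (mem_powersetCard.1 hS).2]
  intro B hB
  simp at hB

/-- The threshold: if `(2 n + 1) (n - k).choose k < (n - s).choose k`, then both values are at least
`s + 1`. -/
theorem threshold {n k s : ℕ} (hk : 1 ≤ k) (hn : 2 * k ≤ n) (hs : s ≤ n)
    (h : (2 * n + 1) * (n - k).choose k < (n - s).choose k) :
    s + 1 ≤ tauMax n k ∧ s + 1 ≤ tauMin n k := by
  have hD0 : 0 < (n - k).choose k := Nat.choose_pos (by omega)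
  set D := (n - k).choose k with hDdef
  set N := (n - s).choose k with hNdef
  set y : ℝ := (2 : ℝ) ^ ((1 : ℝ) / (2 * D)) with hy
  have hDr : (0 : ℝ) < D := by exact_mod_cast hD0
  have hy1 : 1 ≤ y := Real.one_le_rpow (by norm_num) (by positivity)
  have hpow : ∀ j : ℕ, y ^ j = (2 : ℝ) ^ ((j : ℝ) / (2 * D)) := by
    intro j
    rw [hy, ← Real.rpow_natCast, ← Real.rpow_mul (by norm_num)]
    congr 1
    ring
  have hyD : y ^ D = √2 := by
    rw [hpow, Real.sqrt_eq_rpow]
    congr 1
    field_simp
  have h1 : (1 : ℝ) ≤ √2 := by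
    rw [← hyD]
    exact one_le_pow₀ hy1
  have hP : √2 * Phi (n := n) k s y ∅ < 1 := by
    rw [Phi_empty, ← mul_assoc, ← div_eq_mul_inv, div_lt_one (by positivity)]
    have e1 : (n.choose s : ℝ) ≤ 2 ^ n := by exact_mod_cast Nat.choose_le_two_pow n s
    calc √2 * (n.choose s : ℝ) ≤ √2 * 2 ^ n := mul_le_mul_of_nonneg_left e1 (by positivity)
      _ = (2 : ℝ) ^ (((2 * n + 1 : ℕ) : ℝ) / 2) := by
          rw [Real.sqrt_eq_rpow, ← Real.rpow_natCast, ← Real.rpow_add (by norm_num)]
          congr 1
          push_cast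
          ring
      _ < (2 : ℝ) ^ ((N : ℝ) / (2 * D)) := by
          apply Real.rpow_lt_rpow_of_exponent_lt (by norm_num)
          rw [div_lt_div_iff₀ (by norm_num) (by positivity)]
          have : (((2 * n + 1) * D : ℕ) : ℝ) < N := by exact_mod_cast h
          push_cast at this ⊢
          nlinarith
      _ = y ^ N := (hpow N).symm
  have hPhi0 : 0 ≤ Phi (n := n) k s y ∅ := Finset.sum_nonneg fun S _ => wt_nonneg hy1 _ S
  have hcard : (legal (n := n) k ∅).card ≤ n.choose k := by
    rw [legal_empty, card_powersetCard, card_univ, Fintype.card_fin]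
  have hst := strategy (n := n) hk hs hy1 hyD hD0 (n.choose k) ∅ (by simp) hcard
  constructor
  · apply hst.1
    nlinarith
  · refine hst.2 (Phi k s y ∅) hPhi0 (fun A _ => RR_le_Phi hy1 ∅ A) ?_
    linarith

end Pool.Agent.MP_a71bf8_co
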